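import Pool.Agent.Q187.EM.MainB

/-!
Finite generation of top-weight etale motivic cohomology for the blow-ups of projective
spaces over the integers along smooth projective varieties over finite fields is
equivalent to Parshin's conjecture in weights above the dimension.
-/

namespace Pool.Agent.Results.MP_b197b4_nt.BlowUpsAndParshin

open Pool.Agent.Q187.EM

universe u

/-- Q1 for all these blow-ups iff `H^i(Y, Q(m)) = 0` for all smooth projective `Y` over
finite fields, all `i` and all `m > dim Y`. -/
theorem result (T : BlowUps.{u}) (hT : IsBlowUps T) : BlowUpsFG T ↔ ParshinAbove T :=
  blowUps_iff hT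

end Pool.Agent.Results.MP_b197b4_nt.BlowUpsAndParshin
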