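import Pool.Agent.H51BS.TopWeight

/-!
# Degrees below the dimension over finite fields and one rational function field
-/

set_option autoImplicit false

namespace Pool.Agent.Results.MP_b197b4_nt.DegreesBelowDimension

open Pool.Agent.H51BS

/-- Let `p` be a prime. For every `D` the following are equivalent:

1. `Hⁱ(X_et, ℤ(dim X))` is finitely generated for all `i < dim X` and all `X`, smooth, proper,
   connected and of dimension at most `D` over `𝔽_p`;
2. all these groups are finite;
3. `Hⁱ(𝔽_p(t₁, …, t_{D+1}), ℚ(D+1))` is finite dimensional for all `i < D+1`;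
4. `Hⁱ(𝔽_p(t₁, …, t_{D+1}), ℚ(D+1)) = 0` for all `i < D+1`;
5. `Hⁱ(E, ℚ(D)) = 0` for all `i < D` and all fields `E` of transcendence degree at most `D` over
   `𝔽_p`. -/
theorem result (M : TopTheory) (p : ℕ) [Fact p.Prime] (D : ℕ) :
    [LowerFG M p D, LowerFinite M p D, TopRationalFinite M p D, TopRationalZero M p D,
      TopFieldsZero M p D].TFAE :=
  main_top M p D

end Pool.Agent.Results.MP_b197b4_nt.DegreesBelowDimension
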