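import Pool.Agent.Q50.TF.Main

/-!
# Finite generation of étale motivic cohomology for regular arithmetic threefolds and rational maps

Let `W` and `X` be regular connected schemes, proper over the integers, `dim W ≤ 3`, such that the function
field of `X` may be embedded in the function field of `W` (a dominant rational map from `W` to `X`). If
the groups `H^i(W_et, ℤ(dim W))` are finitely generated for `i ≤ 2 dim W`, then so are the groups
`H^i(X_et, ℤ(dim X))` for `i ≤ 2 dim X`; this holds weight by weight (all weights `≥ dim`) and degree by
degree. So Q1 for schemes of dimension at most three is a property of the function field, which is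
inherited by subfields.

In particular Q1 holds for all regular proper models of geometrically rational surfaces (and of conics)
over number fields, whatever their singular fibres are.

The proof: indeterminacies in dimension at most three are resolved by blowing up regular centres of
dimension at most one (Cossart and Piltant); their contribution is given by the groups of finite fields,
rings of integers and curves over finite fields in weights larger than the dimension, which are known; a
dominant morphism gives a transfer up to an integer `N`, and the `N`-torsion is finite.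
-/

set_option autoImplicit false

open AlgebraicGeometry CategoryTheory

universe u

namespace Pool.Agent.Results.MP_b197b4_nt.DominatedThreefolds

open Pool.Agent.Q50.TF

theorem result (T : EtMot.{u}) (hT : T.Facts) :
    (∀ W X : ArSch, RatMap W X → W.dim ≤ 3 →
      (T.Q1 W → T.Q1 X) ∧ ∀ e j : ℕ, AddGroup.FG (T.G W e j) → AddGroup.FG (T.G X e j)) ∧
    (∀ (F : Type) [Field F] [NumberField F] (k : ℕ), k ≤ 2 → ∀ X : ArSch,
      Nonempty (X.K →+* FractionRing (MvPolynomial (Fin k) F)) →
        T.Q1 X ∧ ∀ e j : ℕ, AddGroup.FG (T.G X e j)) ∧
    ∀ 𝒲 𝒳 : Set ArSch, 𝒲 ⊆ 𝒳 → (∀ W ∈ 𝒲, W.dim ≤ 3) → (∀ X ∈ 𝒳, ∃ W ∈ 𝒲, RatMap W X) →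
      ((∀ X ∈ 𝒳, T.Q1 X) ↔ ∀ W ∈ 𝒲, T.Q1 W) := by
  refine ⟨fun W X h h3 => ⟨q1_of_rat hT h h3, fun e j => fg_of_rat hT h h3⟩,
    fun F _ _ k hk X h => ⟨q1_iff.2 fun j => fg_unirational hT F k hk X h 0 j,
      fun e j => fg_unirational hT F k hk X h e j⟩,
    fun 𝒲 𝒳 hs h3 hd => ⟨fun h W hW => h W (hs hW), fun h X hX => ?_⟩⟩
  obtain ⟨W, hW, hr⟩ := hd X hX
  exact q1_of_rat hT hr (h3 W hW) (h W hW)

end Pool.Agent.Results.MP_b197b4_nt.DominatedThreefolds
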