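import Pool.Agent.H51BS.Negative

/-!
# Negative degrees in the weight of the dimension and rational function fields
-/

set_option autoImplicit false

namespace Pool.Agent.Results.MP_b197b4_nt.NegativeDegreesLaw

open Pool.Agent.H51BS

/-- For every `D` the following are equivalent:

1. `Hⁱ(X_et, ℤ(dim X))` is finitely generated for all `i < 0` and all `X`, regular, connected and
   proper over `ℤ`, of dimension at most `D`;
2. `Hⁱ(X, ℚ(dim X)) = 0` for these `i` and `X`;
3. `Hⁱ(E, ℚ(s)) = 0` for all `i < 0` and all fields `E` of Kronecker dimension `s ≤ D`;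
4. `Hⁱ(𝔽_p(t₁, …, t_{s+1}), ℚ(s+1))` is finite dimensional for all `i ≤ 0`, `s ≤ D` and primes `p`,
   and `Hⁱ(ℚ(t₁, …, t_s), ℚ(s+1))` is finite dimensional for all `i ≤ 0` and `1 ≤ s ≤ D`. -/
theorem result (M : TopWeightTheory) (D : ℕ) :
    [NegativeFG M D, NegativeZero M D, KronZero M D, KronFinite M D].TFAE :=
  main_negative M D

end Pool.Agent.Results.MP_b197b4_nt.NegativeDegreesLaw
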